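import Pool.Agent.C4F.StmtsM

/-!
Substitution of generators into a generator.
-/

set_option autoImplicit false

namespace Pool.Agent.C4F.H77

open Pool.Agent.Helper53_CookLevin (PGen)

theorem app_natAdd {α : Type} {m r : ℕ} (a : Fin m → α) (ρ : Fin r → α) :
    (Fin.append a ρ) ∘ (Fin.natAdd m) = ρ := by
  funext i
  simp

theorem app_castAdd {α : Type} {m r : ℕ} (a : Fin m → α) (ρ : Fin r → α) :
    (Fin.append a ρ) ∘ (Fin.castAdd r) = a := by
  funext i
  simp

theorem app_cons {α : Type} {m r : ℕ} (a : Fin (m + 1) → α) (ρ : Fin r → α)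
    (h : m + 1 + r = m + r + 1) :
    (Matrix.vecCons (a 0) (Fin.append (fun i : Fin m => a i.succ) ρ)) ∘ (Fin.cast h) =
      Fin.append a ρ := by
  funext i
  simp only [Function.comp_apply]
  refine Fin.addCases (fun j => ?_) (fun j => ?_) i
  · rw [Fin.append_left]
    refine Fin.cases ?_ (fun j' => ?_) j
    · have : Fin.cast h (Fin.castAdd r (0 : Fin (m + 1))) = 0 := by
        apply Fin.ext; simp
      rw [this]; rfl
    · have : Fin.cast h (Fin.castAdd r j'.succ) = (Fin.castAdd r j').succ := by
        apply Fin.ext; simp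
      rw [this, Matrix.cons_val_succ, Fin.append_left]
  · rw [Fin.append_right]
    have : Fin.cast h (Fin.natAdd (m + 1) j) = (Fin.natAdd m j).succ := by
      apply Fin.ext; simp; omega
    rw [this, Matrix.cons_val_succ, Fin.append_right]

theorem subst_aux {C : Type} (r : ℕ) : ∀ (m : ℕ) (H : (Fin (m + r) → List C) → List C)
    (G : Fin m → (Fin r → List C) → List C), PGen (m + r) H → (∀ i, PGen r (G i)) →
    PGen r (fun ρ => H (Fin.append (fun i => G i ρ) ρ)) := by
  intro m
  induction m with
  | zero =>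
    intro H G hH _
    have h := PGen.rename (Fin.cast (Nat.zero_add r)) hH
    have e : (fun ρ : Fin r → List C => H (Fin.append (fun i => G i ρ) ρ)) =
        fun ρ => H (ρ ∘ Fin.cast (Nat.zero_add r)) := by
      funext ρ
      refine congrArg H (funext fun i => ?_)
      refine Fin.addCases (fun j => j.elim0) (fun j => ?_) i
      rw [Fin.append_right]
      simp only [Function.comp_apply]
      refine congrArg ρ (Fin.ext ?_)
      simp
    rw [e]
    exact h
  | succ m ih =>
    intro H G hH hG
    have hc : m + 1 + r = m + r + 1 := by omega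
    have h1 : PGen (m + r + 1) (fun τ : Fin (m + r + 1) → List C => H (τ ∘ Fin.cast hc)) :=
      PGen.rename (Fin.cast hc) hH
    have h2 : PGen (m + r) (fun σ : Fin (m + r) → List C => G 0 (σ ∘ Fin.natAdd m)) :=
      PGen.rename (Fin.natAdd m) (hG 0)
    have h3 := PGen.letw h2 h1
    have h4 := ih _ (fun i => G i.succ) h3 (fun i => hG i.succ)
    have e : (fun ρ : Fin r → List C => H (Fin.append (fun i => G i ρ) ρ)) =
        fun ρ => H ((Matrix.vecCons (G 0 ((Fin.append (fun i : Fin m => G i.succ ρ) ρ) ∘
          Fin.natAdd m)) (Fin.append (fun i : Fin m => G i.succ ρ) ρ)) ∘ Fin.cast hc) := by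
      funext ρ
      rw [app_natAdd, app_cons (fun i => G i ρ) ρ hc]
    rw [e]
    exact h4

theorem sub : SubStmt := by
  intro m r F G hF hG
  have h1 : PGen (m + r) (fun τ : Fin (m + r) → List Lt => F (τ ∘ Fin.castAdd r)) :=
    PGen.rename (Fin.castAdd r) hF
  have h2 := subst_aux r m _ G h1 hG
  have e : (fun ρ : Fin r → List Lt => F (fun i => G i ρ)) =
      fun ρ => F ((Fin.append (fun i => G i ρ) ρ) ∘ Fin.castAdd r) := by
    funext ρ
    rw [app_castAdd]
  rw [e]
  exact h2

end Pool.Agent.C4F.H77
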