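import Pool.Agent.C4F.StmtsP

/-!
`Gt` is the strict order of the lexicographic order: nestedness.
-/

set_option autoImplicit false

namespace Pool.Agent.C4F.H77

theorem lex_aux (C : ℕ → Prop) (a b a' b' : ℕ → Bool) (n v v' : ℕ) (hv : v < n) (hvv : v ≤ v')
    (hC : C v) (ha : a v = true) (hb : b v = false) (hab : ∀ u < v, C u → a u = b u)
    (_ha' : a' v' = true) (hb' : b' v' = false) (hab' : ∀ u < v', C u → a' u = b' u) :
    (∃ w < n, C w ∧ a w = true ∧ b' w = false ∧ ∀ u < w, C u → a u = b' u) ∨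
      (∃ w < n, C w ∧ a' w = true ∧ b w = false ∧ ∀ u < w, C u → a' u = b u) := by
  classical
  by_cases h : ∃ w, w ≤ v ∧ C w ∧ a w ≠ b' w
  · have hf := Nat.find_spec h
    have hm : ∀ u < Nat.find h, C u → a u = b' u := by
      intro u hu hCu
      by_contra hne
      exact Nat.find_min h hu ⟨by omega, hCu, hne⟩
    obtain ⟨hwv, hCw, hne⟩ := hf
    cases haw : a (Nat.find h)
    · -- a = false, b' = true
      right
      have hb'w : b' (Nat.find h) = true := by
        cases hb'w : b' (Nat.find h)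
        · exact absurd (haw.trans hb'w.symm) hne
        · rfl
      have hlt : Nat.find h < v := by
        rcases Nat.lt_or_ge (Nat.find h) v with h1 | h1
        · exact h1
        · have : Nat.find h = v := by omega
          rw [this, ha] at haw
          exact absurd haw (by simp)
      refine ⟨Nat.find h, by omega, hCw, ?_, ?_, ?_⟩
      · rw [hab' _ (by omega) hCw, hb'w]
      · rw [← hab _ hlt hCw, haw]
      · intro u hu hCu
        rw [hab' u (by omega) hCu, ← hm u hu hCu, hab u (by omega) hCu]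
    · left
      have hb'w : b' (Nat.find h) = false := by
        cases hb'w : b' (Nat.find h)
        · rfl
        · exact absurd (haw.trans hb'w.symm) hne
      exact ⟨Nat.find h, by omega, hCw, haw, hb'w, hm⟩
  · have h : ∀ w, w ≤ v → C w → a w = b' w :=
      fun w h1 h2 => by_contra fun h3 => h ⟨w, h1, h2, h3⟩
    right
    have hlt : v < v' := by
      rcases Nat.lt_or_ge v v' with h1 | h1
      · exact h1
      · have hv' : v = v' := by omega
        have h2 := h v le_rfl hC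
        rw [ha, hv', hb'] at h2
        exact absurd h2 (by simp)
    refine ⟨v, hv, hC, ?_, hb, ?_⟩
    · rw [hab' v hlt hC, ← h v le_rfl hC, ha]
    · intro u hu hCu
      rw [hab' u (by omega) hCu, ← h u (by omega) hCu, hab u hu hCu]

theorem chn : ChnStmt := by
  intro D β i x j y x' y' h h'
  obtain ⟨v, hvn, hi, hj, ha, hb, hab⟩ := h
  obtain ⟨v', hvn', hi', hj', ha', hb', hab'⟩ := h'
  rcases Nat.le_total v v' with hle | hle
  · rcases lex_aux (fun u => D.VS i u ∧ D.VS j u) (fun u => β x (D.rk i u))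
      (fun u => β y (D.rk j u)) (fun u => β x' (D.rk i u)) (fun u => β y' (D.rk j u)) D.n v v'
      hvn hle ⟨hi, hj⟩ ha hb (fun u hu hC => hab u hu hC.1 hC.2) ha' hb'
      (fun u hu hC => hab' u hu hC.1 hC.2) with ⟨w, hw, hC, h1, h2, h3⟩ | ⟨w, hw, hC, h1, h2, h3⟩
    · exact Or.inl ⟨w, hw, hC.1, hC.2, h1, h2, fun u hu h4 h5 => h3 u hu ⟨h4, h5⟩⟩
    · exact Or.inr ⟨w, hw, hC.1, hC.2, h1, h2, fun u hu h4 h5 => h3 u hu ⟨h4, h5⟩⟩
  · rcases lex_aux (fun u => D.VS i u ∧ D.VS j u) (fun u => β x' (D.rk i u))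
      (fun u => β y' (D.rk j u)) (fun u => β x (D.rk i u)) (fun u => β y (D.rk j u)) D.n v' v
      hvn' hle ⟨hi', hj'⟩ ha' hb' (fun u hu hC => hab' u hu hC.1 hC.2) ha hb
      (fun u hu hC => hab u hu hC.1 hC.2) with ⟨w, hw, hC, h1, h2, h3⟩ | ⟨w, hw, hC, h1, h2, h3⟩
    · exact Or.inr ⟨w, hw, hC.1, hC.2, h1, h2, fun u hu h4 h5 => h3 u hu ⟨h4, h5⟩⟩
    · exact Or.inl ⟨w, hw, hC.1, hC.2, h1, h2, fun u hu h4 h5 => h3 u hu ⟨h4, h5⟩⟩

end Pool.Agent.C4F.H77
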